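import Pool.Agent.Lib.MP_524519_ag.DU5.TR.Iface

/-!
# DU5, TR, module RNK: the length modulo the series of order `m + 1` as a corank (helper50)
-/

set_option autoImplicit false
set_option linter.unusedSectionVars false

namespace Pool.Agent.DU5.TR.H50

open MvPowerSeries

section

variable {k : Type} [Field k] {n : ℕ}

/-- The coefficients of degree at most `m`. -/
noncomputable def cf (k : Type) [Field k] (n m : ℕ) : O k n →ₗ[k] (Exd n m → k) where
  toFun h := fun β => coeff (β : Fin n →₀ ℕ) h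
  map_add' a b := by
    funext β
    simp only [map_add, Pi.add_apply]
  map_smul' c a := by
    funext β
    simp only [Pi.smul_apply, RingHom.id_apply]
    exact coeff_smul _ _ _

theorem cf_apply (m : ℕ) (h : O k n) (β : Exd n m) : cf k n m h β = coeff (β : Fin n →₀ ℕ) h := rfl

open Classical in
/-- The polynomial with given coefficients. -/
noncomputable def lf (m : ℕ) (c : Exd n m → k) : O k n :=
  fun α => if h : α ∈ Exd n m then c ⟨α, h⟩ else 0

theorem cf_lf (m : ℕ) (c : Exd n m → k) : cf k n m (lf m c) = c := by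
  classical
  funext β
  change (if h : (β : Fin n →₀ ℕ) ∈ Exd n m then c ⟨β, h⟩ else 0) = c β
  rw [dif_pos β.2]

theorem cf_surjective (m : ℕ) : Function.Surjective (cf k n m) := fun c => ⟨lf m c, cf_lf m c⟩

theorem cf_eq_zero_iff (m : ℕ) (h : O k n) : cf k n m h = 0 ↔ h ∈ MO k n (m + 1) := by
  constructor
  · intro h0 α hα
    have := congrFun h0 ⟨α, Nat.lt_succ_iff.1 hα⟩
    exact this
  · intro h0
    funext β
    exact h0 β (Nat.lt_succ_iff.2 β.2)

theorem cf_mul (m : ℕ) (c a : O k n) (β : Exd n m) :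
    cf k n m (c * a) β = ∑ γ : Exd n m, (if (γ : Fin n →₀ ℕ) ≤ β then
      coeff (β - γ : Fin n →₀ ℕ) a else 0) * cf k n m c γ := by
  classical
  rw [cf_apply, coeff_mul]
  have h1 : ∀ γ : Exd n m, (if (γ : Fin n →₀ ℕ) ≤ β then
      coeff (β - γ : Fin n →₀ ℕ) a else 0) * cf k n m c γ =
      if (γ : Fin n →₀ ℕ) ≤ β then coeff (γ : Fin n →₀ ℕ) c * coeff (β - γ : Fin n →₀ ℕ) a else 0 := by
    intro γ
    split_ifs
    · rw [mul_comm]; rfl
    · rw [zero_mul]
  rw [Finset.sum_congr rfl fun γ _ => h1 γ, ← Finset.sum_filter]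
  refine Finset.sum_bij' (fun q hq => (⟨q.1, ?_⟩ : Exd n m))
    (fun γ _ => ((γ : Fin n →₀ ℕ), ((β : Fin n →₀ ℕ) - γ : Fin n →₀ ℕ))) ?_ ?_ ?_ ?_ ?_
  · have h2 : q.1 + q.2 = (β : Fin n →₀ ℕ) := Finset.HasAntidiagonal.mem_antidiagonal.1 hq
    have h3 : q.1.degree ≤ (β : Fin n →₀ ℕ).degree := by
      rw [← h2, map_add]
      omega
    exact h3.trans β.2
  · intro q hq
    have h2 : q.1 + q.2 = (β : Fin n →₀ ℕ) := Finset.HasAntidiagonal.mem_antidiagonal.1 hq
    rw [Finset.mem_filter]
    refine ⟨Finset.mem_univ _, ?_⟩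
    change q.1 ≤ (β : Fin n →₀ ℕ)
    rw [← h2]
    exact le_self_add
  · intro γ hγ
    rw [Finset.mem_filter] at hγ
    rw [Finset.HasAntidiagonal.mem_antidiagonal]
    exact add_tsub_cancel_of_le hγ.2
  · intro q hq
    have h2 : q.1 + q.2 = (β : Fin n →₀ ℕ) := Finset.HasAntidiagonal.mem_antidiagonal.1 hq
    ext1
    · rfl
    · change (β : Fin n →₀ ℕ) - q.1 = q.2
      rw [← h2, add_tsub_cancel_left]
  · intro γ _
    rfl
  · intro q hq
    have h2 : q.1 + q.2 = (β : Fin n →₀ ℕ) := Finset.HasAntidiagonal.mem_antidiagonal.1 hq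
    change coeff q.1 c * coeff q.2 a = coeff q.1 c * coeff ((β : Fin n →₀ ℕ) - q.1) a
    rw [← h2, add_tsub_cancel_left]

theorem cf_sum (r m : ℕ) (a c : Fin r → O k n) :
    cf k n m (∑ j, c j * a j) = (Mat n r m fun j α => coeff α (a j)).mulVec
      (fun q => cf k n m (c q.1) q.2) := by
  funext β
  rw [map_sum, Finset.sum_apply, Matrix.mulVec, dotProduct, Fintype.sum_prod_type]
  refine Finset.sum_congr rfl fun j _ => ?_
  rw [cf_mul]
  rfl

end

theorem rnk : RnkStatement := by
  classical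
  intro n r m k _ a
  set M := Mat n r m fun j α => coeff α (a j) with hM
  set I : Ideal (O k n) := Ideal.span (Set.range a) ⊔ MO k n (m + 1) with hI
  let W : Submodule k (Exd n m → k) := LinearMap.range M.mulVecLin
  let g : O k n →ₗ[k] ((Exd n m → k) ⧸ W) := W.mkQ.comp (cf k n m)
  have hg : Function.Surjective g := W.mkQ_surjective.comp (cf_surjective m)
  have hmem : ∀ h : O k n, h ∈ I ↔ g h = 0 := by
    intro h
    have h1 : g h = 0 ↔ cf k n m h ∈ W := by
      change W.mkQ (cf k n m h) = 0 ↔ _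
      rw [Submodule.mkQ_apply, Submodule.Quotient.mk_eq_zero]
    rw [h1]
    constructor
    · intro hh
      obtain ⟨y, hy, z, hz, rfl⟩ := Submodule.mem_sup.1 hh
      obtain ⟨c, rfl⟩ := Ideal.mem_span_range_iff_exists_fun.1 hy
      rw [map_add, (cf_eq_zero_iff m z).2 hz, add_zero, cf_sum]
      exact ⟨_, rfl⟩
    · rintro ⟨v, hv⟩
      have h2 : cf k n m (∑ j, lf m (fun γ => v (j, γ)) * a j) = cf k n m h := by
        rw [cf_sum, ← hv]
        change _ = M.mulVec v
        congr 1
        funext q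
        rw [cf_lf]
      have h3 : h - ∑ j, lf m (fun γ => v (j, γ)) * a j ∈ MO k n (m + 1) := by
        rw [← cf_eq_zero_iff, map_sub, h2, sub_self]
      have h4 : h = ∑ j, lf m (fun γ => v (j, γ)) * a j +
          (h - ∑ j, lf m (fun γ => v (j, γ)) * a j) := by ring
      rw [h4]
      exact Submodule.add_mem_sup
        (Ideal.sum_mem _ fun j _ => Ideal.mul_mem_left _ _ (Ideal.subset_span ⟨j, rfl⟩)) h3
  have hker : LinearMap.ker g = I.restrictScalars k := by
    ext h
    rw [LinearMap.mem_ker, ← hmem]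
    rfl
  have e1 : (O k n ⧸ I.restrictScalars k) ≃ₗ[k] ((Exd n m → k) ⧸ W) :=
    (Submodule.quotEquivOfEq _ _ hker.symm).trans (g.quotKerEquivOfSurjective hg)
  have hlen : len k I = Module.length k ((Exd n m → k) ⧸ W) := e1.length_eq
  have hfin : Module.length k ((Exd n m → k) ⧸ W) =
      (Module.finrank k ((Exd n m → k) ⧸ W) : ℕ∞) := Module.length_eq_finrank k _
  rw [hlen, hfin]
  have hrk : M.rank = Module.finrank k W := rfl
  rw [hrk, ← Nat.cast_add, Submodule.finrank_quotient_add_finrank, Module.finrank_fintype_fun_eq_card]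

end Pool.Agent.DU5.TR.H50
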