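import Pool.Agent.Lib.MP_524519_ag.DU5.TR.Iface

/-!
# DU5, TR, module STP2: reduction of the points over `ℂ⟦τ⟧` to characteristic `p` (helper50)
-/

set_option autoImplicit false
set_option linter.unusedSectionVars false

namespace Pool.Agent.DU5.TR.H50

open MvPowerSeries

/-- Integral polynomials and ring homomorphisms. -/
theorem aeval_hom {σ R S : Type} [CommRing R] [CommRing S] (φ : R →+* S) (w : σ → R) (w' : σ → S)
    (Δ : MvPolynomial σ ℤ) (hw : ∀ q ∈ Δ.vars, φ (w q) = w' q) :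
    φ (MvPolynomial.aeval w Δ) = MvPolynomial.aeval w' Δ := by
  have h1 : φ (MvPolynomial.aeval w Δ) = φ.toIntAlgHom (MvPolynomial.aeval w Δ) := rfl
  rw [h1, MvPolynomial.comp_aeval_apply, MvPolynomial.aeval_def, MvPolynomial.aeval_def,
    ← MvPolynomial.coe_eval₂Hom, ← MvPolynomial.coe_eval₂Hom]
  exact MvPolynomial.eval₂Hom_congr' rfl (fun q hq _ => hw q hq) rfl

/-- The relation between the coefficients of a series and those of its partial derivatives. -/
theorem gen_rel {K F : Type} [Field K] [Algebra ℂ K] [Field F] (B' : Subring K) (ψ : B' →+* F)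
    (f : O ℂ 3) (f' : O F 3) (N : ℕ)
    (hf : ∀ α : Fin 3 →₀ ℕ, α.degree ≤ N → ∃ b : B', (b : K) = algebraMap ℂ K (coeff α f) ∧
      ψ b = coeff α f') (s : Option (Fin 3)) (α : Fin 3 →₀ ℕ) (hα : α.degree + 1 ≤ N) :
    ∃ b : B', (b : K) = algebraMap ℂ K (coeff α (gen f s)) ∧ ψ b = coeff α (gen f' s) := by
  rcases s with _ | l
  · exact hf α (by omega)
  · obtain ⟨b, hb, hψ⟩ := hf (α + Finsupp.single l 1) (by
      rw [map_add, Finsupp.degree_single]
      exact hα)
    refine ⟨b * ((α l : B') + 1), ?_, ?_⟩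
    · change _ = algebraMap ℂ K (coeff α (pderiv ℂ l f))
      rw [coeff_pderiv, map_mul, ← hb]
      push_cast
      simp
    · change _ = coeff α (pderiv F l f')
      rw [coeff_pderiv, map_mul, hψ]
      simp

theorem core (hl : LiftStatement) (ha : ArclStatement) (hs : SemiStatement)
    (K : Type) [Field K] [Algebra ℂ K] (D : Derivation ℂ K K)
    (f : O ℂ 3) (m n t : ℕ) (T : Fin t → Option (Fin 3)) (hf0 : constantCoeff f = 0)
    (hm : len ℂ (gi T f) ≤ m) (h : Fin n → O ℂ 3) (x : Fin n → Fin 3 → PowerSeries K)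
    (i : Fin n → Fin 3) (c r : Fin n → ℕ) (v : Fin n → PowerSeries K)
    (hdat : ∀ a, Dat f (x a) (i a) (c a) (v a) ∧ r a < c a)
    (hdet : (Matrix.of fun a b => Pol D (x a) (i a) (v a) (h b) (r a)).det ≠ 0) :
    ∃ P : ℕ, ∀ (p : ℕ) [Fact p.Prime], P < p →
      ∃ (f' : O (AlgebraicClosure (ZMod p)) 3) (h' : Fin n → O (AlgebraicClosure (ZMod p)) 3)
        (x' : Fin n → Fin 3 → PowerSeries (PowerSeries (AlgebraicClosure (ZMod p))))
        (v' : Fin n → PowerSeries (PowerSeries (AlgebraicClosure (ZMod p)))),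
        constantCoeff f' = 0 ∧ len (AlgebraicClosure (ZMod p)) (gi T f') ≤ m ∧
        (∀ a, Dat f' (x' a) (i a) (c a) (v' a)) ∧
        (Matrix.of fun a b => PowerSeries.constantCoeff
          (Pol (PowerSeries.derivative (AlgebraicClosure (ZMod p))) (x' a) (i a) (v' a) (h' b)
            (r a))).det ≠ 0 := by
  classical
  have : CharZero K := charZero_of_injective_algebraMap (algebraMap ℂ K).injective
  obtain ⟨Δ, hvars, hne, hcons⟩ := hs 3 t m ℂ (fun s => gen f (T s)) hm
  set N : ℕ := (∑ a, (3 * c a + 2)) + m + 1 with hN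
  have hNa : ∀ a, 3 * c a + 2 ≤ N := by
    intro a
    have := Finset.single_le_sum (f := fun a => 3 * c a + 2) (fun _ _ => Nat.zero_le _)
      (Finset.mem_univ a)
    have h2 : 3 * c a + 2 ≤ ∑ a, (3 * c a + 2) := this
    omega
  set S : Finset K := (Finset.univ.image fun a => PowerSeries.constantCoeff (v a)) ∪
    ((Finset.univ ×ˢ Finset.univ ×ˢ Finset.range (N + 1)).image
      fun q : Fin n × Fin 3 × ℕ => PowerSeries.coeff q.2.2 (x q.1 q.2.1)) with hS
  set S₀ : Finset K := ((Finset.univ : Finset (Exd 3 N)).image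
      fun α : Exd 3 N => algebraMap ℂ K (coeff (α : Fin 3 →₀ ℕ) f)) ∪
    ((Finset.univ : Finset (Fin n × Exd 3 N)).image
      fun q : Fin n × Exd 3 N => algebraMap ℂ K (coeff (q.2 : Fin 3 →₀ ℕ) (h q.1))) with hS₀
  set M : Matrix (Fin n) (Fin n) K :=
    Matrix.of fun a b => Pol D (x a) (i a) (v a) (h b) (r a) with hM
  set δ : ℂ := MvPolynomial.aeval
    (fun q : Fin t × (Fin 3 →₀ ℕ) => coeff q.2 (gen f (T q.1))) Δ with hδ
  have hD0 : ∀ z ∈ S₀, (D.restrictScalars ℤ : Derivation ℤ K K) z = 0 := by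
    intro z hz
    rw [hS₀, Finset.mem_union, Finset.mem_image, Finset.mem_image] at hz
    rcases hz with ⟨α, _, rfl⟩ | ⟨q, _, rfl⟩
    · exact D.map_algebraMap _
    · exact D.map_algebraMap _
  have hG0 : (0 : K) ∉ ({M.det, algebraMap ℂ K δ} : Finset K) := by
    rw [Finset.mem_insert, Finset.mem_singleton, not_or]
    refine ⟨Ne.symm hdet, fun h0 => hne ?_⟩
    exact (map_eq_zero_iff _ (algebraMap ℂ K).injective).1 h0.symm
  have hinj : Function.Injective (algebraMap ℤ K) := by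
    intro a b hab
    simpa using hab
  obtain ⟨a0, ha0, hlift⟩ := hl ℤ K hinj (D.restrictScalars ℤ) S S₀ {M.det, algebraMap ℂ K δ}
    hD0 hG0
  refine ⟨a0.natAbs, fun p hp hpP => ?_⟩
  have hchar : CharP (AlgebraicClosure (ZMod p)) p := inferInstance
  have hρ : (Int.castRingHom (AlgebraicClosure (ZMod p))) a0 ≠ 0 := by
    intro h0
    have h1 : ((a0 : ℤ) : AlgebraicClosure (ZMod p)) = 0 := h0
    rw [CharP.intCast_eq_zero_iff _ p] at h1
    have h2 : p ∣ a0.natAbs := Int.natCast_dvd.1 h1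
    have h3 : p ≤ a0.natAbs := Nat.le_of_dvd (Int.natAbs_pos.2 ha0) h2
    omega
  obtain ⟨B, B', ψ, φ, hspe, hSB, -, -, hC0, hG⟩ :=
    hlift (AlgebraicClosure (ZMod p)) (Int.castRingHom _) hρ
  obtain ⟨hBB, hDB, hφψ, hφ1⟩ := hspe
  have hC0' : ∀ z : K, ∃ e : AlgebraicClosure (ZMod p), z ∈ S₀ →
      ∃ b : B, (b : K) = z ∧ φ b = PowerSeries.C e := by
    intro z
    by_cases hz : z ∈ S₀
    · obtain ⟨b, e, hb, hφ⟩ := hC0 z hz
      exact ⟨e, fun _ => ⟨b, hb, hφ⟩⟩
    · exact ⟨0, fun h => absurd h hz⟩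
  choose e he using hC0'
  -- the reductions of the series
  let f' : O (AlgebraicClosure (ZMod p)) 3 := fun α => e (algebraMap ℂ K (coeff α f))
  let h' : Fin n → O (AlgebraicClosure (ZMod p)) 3 := fun b α =>
    e (algebraMap ℂ K (coeff α (h b)))
  have hf' : ∀ α : Fin 3 →₀ ℕ, α.degree ≤ N → ∃ b : B, (b : K) = algebraMap ℂ K (coeff α f) ∧
      φ b = PowerSeries.C (coeff α f') := by
    intro α hα
    exact he _ (by
      rw [hS₀]
      exact Finset.mem_union_left _ (Finset.mem_image.2 ⟨⟨α, hα⟩, Finset.mem_univ _, rfl⟩))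
  have hh' : ∀ (l : Fin n) (α : Fin 3 →₀ ℕ), α.degree ≤ N →
      ∃ b : B, (b : K) = algebraMap ℂ K (coeff α (h l)) ∧
      φ b = PowerSeries.C (coeff α (h' l)) := by
    intro l α hα
    exact he _ (by
      rw [hS₀]
      exact Finset.mem_union_right _ (Finset.mem_image.2 ⟨(l, ⟨α, hα⟩), Finset.mem_univ _, rfl⟩))
  have hred0 : ∀ (g : O ℂ 3) (g' : O (AlgebraicClosure (ZMod p)) 3),
      (∀ α : Fin 3 →₀ ℕ, α.degree ≤ N → ∃ b : B, (b : K) = algebraMap ℂ K (coeff α g) ∧
        φ b = PowerSeries.C (coeff α g')) →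
      ∀ α : Fin 3 →₀ ℕ, α.degree ≤ N → ∃ b : B', (b : K) = algebraMap ℂ K (coeff α g) ∧
        ψ b = coeff α g' := by
    intro g g' hg α hα
    obtain ⟨b, hb, hφ⟩ := hg α hα
    refine ⟨⟨(b : K), hBB b.2⟩, hb, ?_⟩
    rw [← hφψ b ⟨(b : K), hBB b.2⟩ rfl, hφ]
    exact PowerSeries.constantCoeff_C _
  have hex : ∀ a : Fin n, ∃ (x' : Fin 3 → PowerSeries (PowerSeries (AlgebraicClosure (ZMod p))))
      (v' : PowerSeries (PowerSeries (AlgebraicClosure (ZMod p)))), Dat f' x' (i a) (c a) v' ∧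
      ∀ (g : O ℂ 3) (g' : O (AlgebraicClosure (ZMod p)) 3),
        (∀ α : Fin 3 →₀ ℕ, α.degree ≤ N → ∃ b : B', (b : K) = algebraMap ℂ K (coeff α g) ∧
          ψ b = coeff α g') →
        ∀ l < c a, ∃ b : B', (b : K) = Pol D (x a) (i a) (v a) g l ∧
          ψ b = PowerSeries.constantCoeff
            (Pol (PowerSeries.derivative (AlgebraicClosure (ZMod p))) x' (i a) v' g' l) := by
    intro a
    refine ha ℂ K (AlgebraicClosure (ZMod p)) D B B' ψ φ ⟨hBB, hDB, hφψ, hφ1⟩ f f' (x a) (i a)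
      (c a) N (v a) (hdat a).1 (hNa a) (hSB _ ?_) hf' (fun j l hl => hSB _ ?_)
    · rw [hS]
      exact Finset.mem_union_left _ (Finset.mem_image.2 ⟨a, Finset.mem_univ _, rfl⟩)
    · rw [hS]
      refine Finset.mem_union_right _ (Finset.mem_image.2 ⟨(a, j, l), ?_, rfl⟩)
      simp only [Finset.mem_product, Finset.mem_univ, Finset.mem_range, true_and]
      omega
  choose x' v' hdat' hpol' using hex
  refine ⟨f', h', x', v', ?_, ?_, hdat', ?_⟩
  · -- the constant coefficient
    obtain ⟨b, hb, hφ⟩ := hf' 0 (by simp)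
    have h1 : (b : K) = 0 := by
      rw [hb, coeff_zero_eq_constantCoeff_apply, hf0, map_zero]
    have h2 : b = 0 := by
      ext
      exact h1
    rw [h2, map_zero] at hφ
    rw [← coeff_zero_eq_constantCoeff_apply]
    have h3 := congrArg PowerSeries.constantCoeff hφ
    rw [map_zero, PowerSeries.constantCoeff_C] at h3
    exact h3.symm
  · -- the length
    refine hcons (AlgebraicClosure (ZMod p)) (fun s => gen f' (T s)) ?_
    have hw : ∀ q : Fin t × (Fin 3 →₀ ℕ), ∃ b : B', q.2.degree ≤ m →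
        (b : K) = algebraMap ℂ K (coeff q.2 (gen f (T q.1))) ∧
        ψ b = coeff q.2 (gen f' (T q.1)) := by
      intro q
      by_cases hq : q.2.degree ≤ m
      · obtain ⟨b, hb⟩ := gen_rel B' ψ f f' N (hred0 f f' hf') (T q.1) q.2 (by omega)
        exact ⟨b, fun _ => hb⟩
      · exact ⟨0, fun h => absurd h hq⟩
    choose w hw using hw
    have h1 : ((MvPolynomial.aeval w Δ : B') : K) = algebraMap ℂ K δ := by
      rw [hδ]
      have e1 := aeval_hom B'.subtype w
        (fun q : Fin t × (Fin 3 →₀ ℕ) => algebraMap ℂ K (coeff q.2 (gen f (T q.1)))) Δ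
        (fun q hq => (hw q (hvars q hq)).1)
      have e2 := aeval_hom (algebraMap ℂ K)
        (fun q : Fin t × (Fin 3 →₀ ℕ) => coeff q.2 (gen f (T q.1)))
        (fun q : Fin t × (Fin 3 →₀ ℕ) => algebraMap ℂ K (coeff q.2 (gen f (T q.1)))) Δ
        (fun q _ => rfl)
      rw [e2]
      exact e1
    have h2 : ψ (MvPolynomial.aeval w Δ) = MvPolynomial.aeval
        (fun q : Fin t × (Fin 3 →₀ ℕ) => coeff q.2 (gen f' (T q.1))) Δ :=
      aeval_hom ψ w _ Δ (fun q hq => (hw q (hvars q hq)).2)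
    intro h0
    refine hG (MvPolynomial.aeval w Δ) ?_ (h2.trans h0)
    rw [h1]
    exact Finset.mem_insert_of_mem (Finset.mem_singleton_self _)
  · -- the determinant
    have hex2 : ∀ a b : Fin n, ∃ z : B', (z : K) = Pol D (x a) (i a) (v a) (h b) (r a) ∧
        ψ z = PowerSeries.constantCoeff (Pol (PowerSeries.derivative (AlgebraicClosure (ZMod p)))
          (x' a) (i a) (v' a) (h' b) (r a)) := fun a b =>
      hpol' a (h b) (h' b) (hred0 (h b) (h' b) (hh' b)) (r a) (hdat a).2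
    choose Z hZ1 hZ2 using hex2
    have h1 : (((Matrix.of Z).det : B') : K) = M.det := by
      have e1 := RingHom.map_det B'.subtype (Matrix.of Z)
      have e2 : B'.subtype.mapMatrix (Matrix.of Z) = M := by
        ext a b
        exact hZ1 a b
      rw [e2] at e1
      exact e1
    have h2 : ψ (Matrix.of Z).det = (Matrix.of fun a b => PowerSeries.constantCoeff
        (Pol (PowerSeries.derivative (AlgebraicClosure (ZMod p))) (x' a) (i a) (v' a) (h' b)
          (r a))).det := by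
      rw [RingHom.map_det]
      congr 1
      ext a b
      exact hZ2 a b
    rw [← h2]
    refine hG _ ?_
    rw [h1]
    exact Finset.mem_insert_self _ _

theorem stp2 (hl : LiftStatement) (ha : ArclStatement) (hb : BchStatement) (hd : DfrStatement)
    (hs : SemiStatement) : Stp2Statement := by
  classical
  intro f m n t T hf0 hm h x i c r v hdat hdet
  obtain ⟨D', hD', -⟩ := hd ℂ (PowerSeries ℂ) (PowerSeries.derivative ℂ)
  let j : PowerSeries ℂ →ₐ[ℂ] FractionRing (PowerSeries ℂ) :=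
    IsScalarTower.toAlgHom ℂ (PowerSeries ℂ) (FractionRing (PowerSeries ℂ))
  let J : PowerSeries ℂ →+* FractionRing (PowerSeries ℂ) := j
  have hj : ∀ a, j a = algebraMap (PowerSeries ℂ) (FractionRing (PowerSeries ℂ)) a := fun _ => rfl
  have hjinj : Function.Injective j := IsFractionRing.injective (PowerSeries ℂ) _
  have hX : ∀ a, Dat f (fun l => PowerSeries.map J (x a l)) (i a) (c a)
      (PowerSeries.map J (v a)) ∧ ∀ (g : O ℂ 3) (l : ℕ),
      Pol D' (fun l => PowerSeries.map J (x a l)) (i a)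
        (PowerSeries.map J (v a)) g l =
        j (Pol (PowerSeries.derivative ℂ) (x a) (i a) (v a) g l) := fun a =>
    hb ℂ (PowerSeries ℂ) (FractionRing (PowerSeries ℂ)) j (PowerSeries.derivative ℂ) D'
      (fun a => hD' a) f (x a) (i a) (c a) (v a) (hdat a).1
  refine core hl ha hs (FractionRing (PowerSeries ℂ)) D' f m n t T hf0 hm h
    (fun a l => PowerSeries.map J (x a l)) i c r
    (fun a => PowerSeries.map J (v a))
    (fun a => ⟨(hX a).1, (hdat a).2⟩) ?_
  set M : Matrix (Fin n) (Fin n) (PowerSeries ℂ) :=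
    Matrix.of fun a b => Pol (PowerSeries.derivative ℂ) (x a) (i a) (v a) (h b) (r a) with hM
  have h1 : (Matrix.of fun a b => Pol D' (fun l => PowerSeries.map J
      (x a l)) (i a) (PowerSeries.map J (v a)) (h b) (r a)) =
      J.mapMatrix M := by
    ext a b
    exact (hX a).2 (h b) (r a)
  rw [h1, ← RingHom.map_det]
  intro h0
  have h2 : M.det = 0 := hjinj (by rw [map_zero]; exact h0)
  apply hdet
  have h3 : (Matrix.of fun a b => PowerSeries.constantCoeff
      (Pol (PowerSeries.derivative ℂ) (x a) (i a) (v a) (h b) (r a))) =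
      (PowerSeries.constantCoeff (R := ℂ)).mapMatrix M := by
    ext a b
    rfl
  rw [h3, ← RingHom.map_det, h2, map_zero]

end Pool.Agent.DU5.TR.H50
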